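import Pool.Agent.H76.SW.T

/-!
Module A3 of the board `stw_modules`.
-/

set_option autoImplicit false

namespace Pool.Agent.H35.SW

open Pool.Agent.H76.SW Relation

/-- The complete graph on two pairs minus one edge. -/
def G4 : SimpleGraph (Bool ⊕ Bool) where
  Adj x y := x ≠ y ∧ ¬ ∃ c c' : Bool, x = Sum.inl c ∧ y = Sum.inl c'
  symm := ⟨fun x y h => ⟨h.1.symm, fun ⟨c, c', h1, h2⟩ => h.2 ⟨c', c, h2, h1⟩⟩⟩
  loopless := ⟨fun _ h => h.1 rfl⟩

def bg (c : Bool) : Finset (Bool ⊕ Bool) := {Sum.inl c, Sum.inr false, Sum.inr true}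

theorem inr_mem (c c' : Bool) : (Sum.inr c' : Bool ⊕ Bool) ∈ bg c := by
  cases c' <;> simp [bg]

theorem inl_mem (c c' : Bool) : (Sum.inl c' : Bool ⊕ Bool) ∈ bg c ↔ c' = c := by
  simp [bg]

def rdG4 (k : ℕ) (hk : 2 ≤ k) : RD G4 k where
  N := Bool
  fin := inferInstance
  par := fun c => if c then some false else none
  rk := fun c => if c then 1 else 0
  hrk := by
    intro x y h
    cases x
    · simp at h
    · simp at h
      subst h
      simp
  B := bg
  cov := by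
    rintro (c | c)
    · exact ⟨c, (inl_mem c c).2 rfl⟩
    · exact ⟨false, inr_mem false c⟩
  edge := by
    rintro (c | c) (c' | c') h
    · exact absurd ⟨c, c', rfl, rfl⟩ h.2
    · exact ⟨c, (inl_mem c c).2 rfl, inr_mem c c'⟩
    · exact ⟨c', inr_mem c' c, (inl_mem c' c').2 rfl⟩
    · exact ⟨false, inr_mem _ _, inr_mem _ _⟩
  conn := by
    rintro (c | c)
    · exact ⟨c, (inl_mem c c).2 rfl, fun x hx => Or.inl ((inl_mem x c).1 hx).symm⟩
    · refine ⟨false, inr_mem _ _, fun x _ => ?_⟩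
      cases x
      · exact Or.inl rfl
      · exact Or.inr ⟨false, rfl, inr_mem _ _⟩
  card := by
    intro x
    have h1 : (bg x).card ≤ 3 := Finset.card_le_three
    omega

theorem pf_A3 (h1 : U_s5_lift) (h2 : U_q4_body) (h3 : U_q5_unfold) (h4 : U_d3_unroot)
    (h5 : U_d9_mono) : U_a3_wrap2 := by
  intro A P Q L _ k hk gs hs tr pos pp pp' h bd nn δ' hδ
  classical
  obtain ⟨hW, hS, hsz, hFQ, hsat, hmain⟩ := hδ
  set pos4 : Bool ⊕ Bool → P := Sum.elim pp pp' with hpos4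
  set F : Set (((Bool ⊕ Bool) × Q) × ((Bool ⊕ Bool) × Q)) :=
    {e | rho gs tr (pos4 e.1.1, e.1.2) (pos4 e.2.1, e.2.2) ∧
      ¬ (e.1.1 ≠ e.2.1 ∧ ∃ c c' : Bool, e.1.1 = Sum.inl c ∧ e.2.1 = Sum.inl c')} with hF
  obtain ⟨b, e, hb, hbs, hbsz, hbw⟩ := h2 tr (Bool ⊕ Bool) F 1 (fun _ => Sum.inr false)
    (fun _ => Sum.inr true)
  have hcard : Fintype.card (Bool ⊕ Bool) = 4 := by simp
  have hbn : b.n = 4 := by
    have := Fintype.card_congr e
    rw [hcard, Fintype.card_fin] at this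
    exact this.symm
  rw [hcard] at hbsz
  refine ⟨RQ.cq 1 b (fun _ => δ') (e (Sum.inl false)) (e (Sum.inl true)), ?_, ?_, ?_, ?_, ?_, ?_⟩
  · refine ⟨?_, fun _ => hW⟩
    refine hbw G4 k ?_ ?_ (h4 G4 k ⟨rdG4 k hk⟩)
    · intro x s y s' hxy hne
      exact ⟨hne, fun hc => hxy.2 ⟨hne, hc⟩⟩
    · intro j _
      refine ⟨by simp, ?_⟩
      rintro ⟨c, c', hc, -⟩
      cases hc
  · exact ⟨hbs, fun _ => hS⟩
  · change 1 + b.size + ∑ _j : Fin 1, δ'.size ≤ _
    rw [Fin.sum_univ_one]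
    omega
  · exact (h3 tr b _ _ _ hb (fun _ => δ') nn (fun _ => hFQ) (4 + nn) (by omega)).1 _ _
  · refine ⟨fun i => cl gs (pos4 (e.symm i)), ?_, ?_, ?_⟩
    · rw [hb]
      refine ⟨?_, ?_⟩
      · rintro _ ⟨y, hy, rfl⟩
        simp only [Equiv.symm_apply_apply]
        exact (h1 gs hs tr _ _ _ _).1 hy.1
      · intro j
        simp only [Equiv.symm_apply_apply]
        exact hsat
    · simp only [Equiv.symm_apply_apply]
      rfl
    · simp only [Equiv.symm_apply_apply]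
      rfl
  · intro V E hh hsatE hRP
    obtain ⟨μ, hμ, hμ1, hμ2⟩ := hsatE
    rw [hb] at hμ
    obtain ⟨hfacts, hR⟩ := hμ
    have hfact : ∀ x s y s', ((x, s), (y, s')) ∈ F → Reach E tr (μ (e x), s) (μ (e y), s') := by
      intro x s y s' hxy
      exact hfacts _ ⟨_, hxy, rfl⟩
    have hRP' : RP (rho gs tr) pp' E tr (fun c => μ (e (Sum.inr c))) := by
      intro a a' s s' hr
      refine hfact _ _ _ _ ⟨hr, ?_⟩
      rintro ⟨-, c, c', hc, -⟩
      cases hc
    obtain ⟨ν, hν⟩ := hmain V E (fun c => μ (e (Sum.inr c))) (hR 0) hRP'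
    refine ⟨ν, ?_⟩
    have hval : ∀ c, μ (e (Sum.inl c)) = hh c := by
      intro c
      cases c
      · exact hμ1
      · exact hμ2
    rintro (a | c) (a' | c') s s' hr
    · exact hν (Sum.inl a) (Sum.inl a') s s' hr
    · obtain ⟨a1, s1, hr1, hr2⟩ := (h a c').1 s s' hr
      have hA := hν (Sum.inl a) (Sum.inr a1) s s1 hr1
      have hB : Reach E tr (μ (e (Sum.inr a1)), s1) (μ (e (Sum.inl c')), s') := by
        refine hfact _ _ _ _ ⟨hr2, ?_⟩
        rintro ⟨-, d, d', hd, -⟩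
        cases hd
      rw [hval] at hB
      exact ReflTransGen.trans hA hB
    · obtain ⟨a1, s1, hr1, hr2⟩ := (h a' c).2 s s' hr
      have hA : Reach E tr (μ (e (Sum.inl c)), s) (μ (e (Sum.inr a1)), s1) := by
        refine hfact _ _ _ _ ⟨hr1, ?_⟩
        rintro ⟨-, d, d', -, hd⟩
        cases hd
      have hB := hν (Sum.inr a1) (Sum.inl a') s1 s' hr2
      rw [hval] at hA
      exact ReflTransGen.trans hA hB
    · exact hRP c c' s s' hr

end Pool.Agent.H35.SW
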