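import Pool.Agent.H76.SW.CT

/-!
Module CPQ: from programs to queries.
-/

namespace Pool.Agent.H35.SW

open Pool.Agent.H76.SW

/-- The automaton of a code. -/
def autOf (a c : ℕ) (x : AutC) : NFA ((Fin a ⊕ Fin c) × Bool) (Fin x.1.1) where
  step s l := {s' | (((s : ℕ), (nmA a c l.1, l.2)), (s' : ℕ)) ∈ x.2}
  start := {s | (s : ℕ) ∈ x.1.2.1}
  accept := {s | (s : ℕ) ∈ x.1.2.2}

theorem nmA_surj (a c l : ℕ) (h : l < a + c) : ∃ x : Fin a ⊕ Fin c, nmA a c x = l := by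
  by_cases hl : l < a
  · exact ⟨Sum.inl ⟨l, hl⟩, rfl⟩
  · refine ⟨Sum.inr ⟨l - a, by omega⟩, ?_⟩
    show a + (l - a) = l
    omega

theorem codesAut (a c : ℕ) (x : AutC) (h : WfAut (a + c) x) :
    CodesAut (nmA a c) (autOf a c x) x where
  st := rfl
  start n := by
    constructor
    · intro hn
      exact ⟨⟨n, h.1 n hn⟩, hn, rfl⟩
    · rintro ⟨s, hs, rfl⟩
      exact hs
  accept n := by
    constructor
    · intro hn
      exact ⟨⟨n, h.2.1 n hn⟩, hn, rfl⟩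
    · rintro ⟨s, hs, rfl⟩
      exact hs
  trans y := by
    constructor
    · intro hy
      obtain ⟨h1, h2, h3⟩ := h.2.2 y hy
      obtain ⟨l, hl⟩ := nmA_surj a c _ h2
      refine ⟨⟨y.1.1, h1⟩, (l, y.1.2.2), ⟨y.2, h3⟩, ?_, ?_⟩
      · show ((y.1.1, (nmA a c l, y.1.2.2)), y.2) ∈ x.2
        rw [hl]
        exact hy
      · simp only [hl]
    · rintro ⟨s, l, s', hs, rfl⟩
      exact hs

theorem evalFrom_nil_set {α σ : Type} (M : NFA α σ) (w : List α) : M.evalFrom ∅ w = ∅ := by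
  induction w with
  | nil => rfl
  | cons x w ih =>
    have : M.evalFrom ∅ (x :: w) = M.evalFrom (M.stepSet ∅ x) w := rfl
    rw [this]
    have h2 : M.stepSet ∅ x = ∅ := by
      ext s
      simp
    rw [h2]
    exact ih

theorem evalFrom_dead {α σ : Type} (M : NFA α σ) (l : α) (hl : ∀ s, M.step s l = ∅) :
    ∀ (w : List α) (S : Set σ), l ∈ w → M.evalFrom S w = ∅ := by
  intro w
  induction w with
  | nil => simp
  | cons x w ih =>
    intro S hm
    have h1 : M.evalFrom S (x :: w) = M.evalFrom (M.stepSet S x) w := rfl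
    rw [h1]
    rcases List.mem_cons.1 hm with rfl | hm
    · have h2 : M.stepSet S l = ∅ := by
        ext s
        simp [NFA.mem_stepSet, hl]
      rw [h2]
      exact evalFrom_nil_set M w
    · exact ih _ hm

theorem simple_letters (a c : ℕ) (x : AutC) (h : ∀ t ∈ x.2, t.1.2.1 < a) :
    ∀ w ∈ (autOf a c x).accepts, ∀ l ∈ w, ∃ y, l.1 = Sum.inl y := by
  intro w hw l hl
  obtain ⟨s, hs, hs2⟩ := hw
  by_contra hc
  push Not at hc
  have hd : ∀ s, (autOf a c x).step s l = ∅ := by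
    intro s
    ext s'
    simp only [Set.mem_empty_iff_false, iff_false]
    intro hm
    have h1 := h _ hm
    rcases hx : l.1 with y | j
    · exact hc y hx
    · simp only [hx] at h1
      have : nmA a c (Sum.inr j) = a + (j : ℕ) := rfl
      omega
  have := evalFrom_dead (autOf a c x) l hd w (autOf a c x).start hl
  have h2 : s ∈ (autOf a c x).evalFrom (autOf a c x).start w := hs2
  rw [this] at h2
  exact h2

theorem accepts_single {α σ : Type} (M : NFA α σ) (s0 s1 : σ) (l0 : α) (hne : s0 ≠ s1)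
    (h1 : M.start = {s0}) (h2 : M.accept = {s1})
    (h3 : ∀ s l s', s' ∈ M.step s l ↔ s = s0 ∧ l = l0 ∧ s' = s1) : M.accepts = {[l0]} := by
  have hst : ∀ l, l ≠ l0 → ∀ s, M.step s l = ∅ := by
    intro l hl s
    ext s'
    simp only [Set.mem_empty_iff_false, iff_false, h3]
    rintro ⟨_, h, _⟩
    exact hl h
  have hs0 : M.stepSet {s0} l0 = {s1} := by
    ext s
    rw [NFA.mem_stepSet]
    constructor
    · rintro ⟨t, _, h⟩
      exact ((h3 _ _ _).1 h).2.2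
    · intro h
      exact ⟨s0, rfl, (h3 _ _ _).2 ⟨rfl, rfl, h⟩⟩
  have hs1 : ∀ l, M.stepSet {s1} l = ∅ := by
    intro l
    ext s
    simp only [NFA.mem_stepSet, Set.mem_singleton_iff, h3, Set.mem_empty_iff_false, iff_false]
    rintro ⟨t, rfl, h, _⟩
    exact hne h.symm
  ext w
  constructor
  · rintro ⟨s, hs, hs2⟩
    rw [h2] at hs
    obtain rfl : s = s1 := hs
    have hs3 : s ∈ M.evalFrom {s0} w := by rw [← h1]; exact hs2
    match w, hs3 with
    | [], hs3 =>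
      exact absurd (Set.mem_singleton_iff.1 hs3).symm hne
    | l :: w, hs3 =>
      have e1 : M.evalFrom {s0} (l :: w) = M.evalFrom (M.stepSet {s0} l) w := rfl
      rw [e1] at hs3
      by_cases hl : l = l0
      · subst hl
        rw [hs0] at hs3
        match w, hs3 with
        | [], hs3 => exact Set.mem_singleton _
        | l' :: w, hs3 =>
          have e2 : M.evalFrom {s} (l' :: w) = M.evalFrom (M.stepSet {s} l') w := rfl
          rw [e2, hs1, evalFrom_nil_set] at hs3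
          exact hs3.elim
      · have e2 := evalFrom_dead M l (hst l hl) (l :: w) {s0} List.mem_cons_self
        rw [e1] at e2
        rw [e2] at hs3
        exact hs3.elim
  · intro hw
    obtain rfl : w = [l0] := hw
    refine ⟨s1, by rw [h2]; rfl, ?_⟩
    show s1 ∈ M.evalFrom M.start [l0]
    rw [h1]
    have e1 : M.evalFrom {s0} [l0] = M.stepSet {s0} l0 := rfl
    rw [e1, hs0]
    rfl

theorem simple_sym (a c : ℕ) (j : Fin c) :
    (autOf a c (symC (a + (j : ℕ)))).accepts = {[(Sum.inr j, true)]} := by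
  apply accepts_single _ (⟨0, by decide⟩ : Fin 2) (⟨1, by decide⟩ : Fin 2)
  · intro h
    exact absurd (congrArg Fin.val h) (by decide)
  · ext s
    show (s : ℕ) ∈ [0] ↔ s = _
    rw [List.mem_singleton, Fin.ext_iff]
  · ext s
    show (s : ℕ) ∈ [1] ↔ s = _
    rw [List.mem_singleton, Fin.ext_iff]
  · intro s l s'
    show (((s : ℕ), (nmA a c l.1, l.2)), (s' : ℕ)) ∈ [((0, (a + (j : ℕ), true)), 1)] ↔ _
    rw [List.mem_singleton, Fin.ext_iff, Fin.ext_iff]
    obtain ⟨l1, l2⟩ := l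
    simp only [Prod.mk.injEq]
    have hn : nmA a c l1 = a + (j : ℕ) ↔ l1 = Sum.inr j := by
      rcases l1 with y | j'
      · have : nmA a c (Sum.inl y) = (y : ℕ) := rfl
        rw [this]
        constructor
        · intro h
          have := y.2
          omega
        · intro h
          simp at h
      · have : nmA a c (Sum.inr j') = a + (j' : ℕ) := rfl
        rw [this]
        constructor
        · intro h
          rw [Fin.ext (show (j' : ℕ) = j by omega)]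
        · intro h
          rw [Sum.inr.inj h]
    rw [hn]
    tauto

theorem simpleAut (a c : ℕ) (x : AutC) (hw : WfAut (a + c) x) (h : SiAut a x) :
    (∀ w ∈ (autOf a c x).accepts, ∀ l ∈ w, ∃ y, l.1 = Sum.inl y) ∨
      ∃ j, (autOf a c x).accepts = {[(Sum.inr j, true)]} := by
  rcases h with h | ⟨t, ht, hx⟩
  · exact Or.inl (simple_letters a c x h)
  · have hl := (hw.2.2 t ht).2.1
    by_cases hla : t.1.2.1 < a
    · left
      apply simple_letters
      intro y hy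
      rw [hx] at hy
      have : y = ((0, (t.1.2.1, true)), 1) := List.mem_singleton.1 hy
      rw [this]
      exact hla
    · right
      refine ⟨⟨t.1.2.1 - a, by omega⟩, ?_⟩
      have e : t.1.2.1 = a + ((⟨t.1.2.1 - a, by omega⟩ : Fin c) : ℕ) := by
        show t.1.2.1 = a + (t.1.2.1 - a)
        omega
      rw [hx]
      have key := simple_sym a c ⟨t.1.2.1 - a, by omega⟩
      rw [← e] at key
      exact key

/-- The body of a code. -/
def bodyOf (a c : ℕ) (q : CqC) (hq : ∀ t ∈ q.2, t.1.1 < q.1.1 ∧ t.1.2 < q.1.1) :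
    Body (Fin a) c where
  n := q.1.1
  m := q.2.length
  src i := ⟨(q.2.get i).1.1, (hq _ (List.get_mem _ _)).1⟩
  tgt i := ⟨(q.2.get i).1.2, (hq _ (List.get_mem _ _)).2⟩
  st i := (q.2.get i).2.1.1
  aut i := autOf a c (q.2.get i).2

theorem codesBody (a c : ℕ) (q : CqC) (hq : ∀ t ∈ q.2, t.1.1 < q.1.1 ∧ t.1.2 < q.1.1)
    (hw : ∀ t ∈ q.2, WfAut (a + c) t.2) :
    CodesBody (nmA a c) (bodyOf a c q hq) q.1.1 q.2 := by
  refine ⟨rfl, rfl, ?_⟩
  intro i
  refine ⟨(q.2.get i).2, ?_, codesAut a c _ (hw _ (List.get_mem _ _))⟩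
  rw [List.getElem?_eq_getElem i.2]
  rfl

theorem body_width (h7 : V_TI) (a c k : ℕ) (q : CqC)
    (hq : ∀ t ∈ q.2, t.1.1 < q.1.1 ∧ t.1.2 < q.1.1)
    (ht : TwC k q.1.1 (q.2.map Prod.fst)) : TreeWidthLE (bodyOf a c q hq).graph k := by
  refine (h7 k q.1.1 (bodyOf a c q hq).graph (q.2.map Prod.fst) ?_ ?_).1 ht
  · rintro u v ⟨hne, i, hi⟩
    rcases hi with ⟨h1, h2⟩ | ⟨h1, h2⟩
    · left
      rw [← h1, ← h2]
      exact List.mem_map.2 ⟨q.2.get i, List.get_mem _ _, rfl⟩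
    · right
      rw [← h1, ← h2]
      exact List.mem_map.2 ⟨q.2.get i, List.get_mem _ _, rfl⟩
  · intro e he
    obtain ⟨t, ht, rfl⟩ := List.mem_map.1 he
    obtain ⟨i, hi⟩ := List.mem_iff_get.1 ht
    refine ⟨(bodyOf a c q hq).src i, (bodyOf a c q hq).tgt i, ?_, ?_⟩
    · rw [← hi]
      rfl
    · by_cases h : (bodyOf a c q hq).src i = (bodyOf a c q hq).tgt i
      · exact Or.inl h
      · exact Or.inr ⟨h, i, Or.inl ⟨rfl, rfl⟩⟩

theorem body_simple (a c : ℕ) (q : CqC) (hq : ∀ t ∈ q.2, t.1.1 < q.1.1 ∧ t.1.2 < q.1.1)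
    (hw : ∀ t ∈ q.2, WfAut (a + c) t.2) (hs : ∀ t ∈ q.2, SiAut a t.2) :
    (bodyOf a c q hq).Simple := by
  intro i
  exact simpleAut a c _ (hw _ (List.get_mem _ _)) (hs _ (List.get_mem _ _))

theorem body_size (a c M : ℕ) (q : CqC) (hq : ∀ t ∈ q.2, t.1.1 < q.1.1 ∧ t.1.2 < q.1.1)
    (hc : c ≤ M) (h1 : q.1.1 < M) (h2 : q.2.length ≤ M) (h3 : ∀ t ∈ q.2, t.2.1.1 < M) :
    (bodyOf a c q hq).size ≤ 3 * M + M ^ 2 := by
  show c + q.1.1 + q.2.length + ∑ i : Fin q.2.length, (q.2.get i).2.1.1 ≤ 3 * M + M ^ 2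
  have e3 : ∑ i : Fin q.2.length, (q.2.get i).2.1.1 ≤ ∑ _i : Fin q.2.length, M :=
    Finset.sum_le_sum fun i _ => (h3 _ (List.get_mem _ _)).le
  rw [Finset.sum_const, Finset.card_univ, Fintype.card_fin, smul_eq_mul] at e3
  have e4 : q.2.length * M ≤ M * M := Nat.mul_le_mul_right _ h2
  have e5 : M ^ 2 = M * M := sq M
  omega

/-- The atoms of the codes in `cqU M`. -/
theorem mem_cqU (h1 : V_LM) (M : ℕ) (q : CqC) (h : q ∈ cqU M) :
    q.1.1 < M ∧ q.2.length ≤ M ∧ ∀ t ∈ q.2, t.2.1.1 < M := by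
  unfold cqU at h
  obtain ⟨n, hn, h⟩ := List.mem_flatMap.1 h
  obtain ⟨o, ho, h⟩ := List.mem_flatMap.1 h
  obtain ⟨t, ht, rfl⟩ := List.mem_map.1 h
  obtain ⟨ht1, ht2⟩ := (h1 _ _ _).1 ht
  refine ⟨List.mem_range.1 hn, ht1, ?_⟩
  intro y hy
  have := ht2 y hy
  unfold atU at this
  obtain ⟨x1, _, h⟩ := List.mem_flatMap.1 this
  obtain ⟨x2, _, h⟩ := List.mem_flatMap.1 h
  obtain ⟨x3, hx3, rfl⟩ := List.mem_map.1 h
  unfold autU at hx3
  obtain ⟨n', hn', h⟩ := List.mem_flatMap.1 hx3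
  obtain ⟨i', _, h⟩ := List.mem_flatMap.1 h
  obtain ⟨f', _, h⟩ := List.mem_flatMap.1 h
  obtain ⟨t', _, rfl⟩ := List.mem_map.1 h
  exact List.mem_range.1 hn'

theorem mem_uqU (h1 : V_LM) (M : ℕ) (Q : UqC) (h : Q ∈ uqU M) :
    Q.length ≤ M ∧ ∀ q ∈ Q, q ∈ cqU M := (h1 _ _ _).1 h

theorem mem_prU (h1 : V_LM) (M : ℕ) (P : PrC) (h : P ∈ prU M) :
    (P.1.length ≤ M ∧ ∀ Q ∈ P.1, Q ∈ uqU M) ∧ P.2 ∈ uqU M := by
  unfold prU at h
  obtain ⟨D, hD, h⟩ := List.mem_flatMap.1 h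
  obtain ⟨Q, hQ, rfl⟩ := List.mem_map.1 h
  exact ⟨(h1 _ _ _).1 hD, hQ⟩

/-- One conjunctive query. -/
theorem one (h1 : V_LM) (h3 : V_CI) (h4 : V_PB) (h6 : V_PA) (h7 : V_TI)
    (a r k M c : ℕ) (hc : c ≤ M) (defs : List UqC) (q : CqC) (hM : q ∈ cqU M)
    (hw : WfCq (a + c) r k q) (hs : ∀ t ∈ q.2, SiAut a t.2)
    (rq : Fin c → RQ (Fin a))
    (hrq : ∀ (n : ℕ) (E : GrC), GrOK n a E → ∀ (u : Fin n) (j : Fin c) (v : Fin n),
      (((u : ℕ), a + (j : ℕ)), (v : ℕ)) ∈ progE n a E defs ↔ (rq j).Sat (toRel n a E) u v) :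
    ∃ (b : Body (Fin a) c) (out : Fin r → Fin b.n), b.size ≤ 3 * M + M ^ 2 ∧ b.Simple ∧
      TreeWidthLE b.graph k ∧
      ∀ (n : ℕ) (E : GrC), GrOK n a E → ∀ z : Fin r → Fin n,
        (CqSat n (progE n a E defs) q (List.ofFn fun i => (z i : ℕ)) ↔
          ∃ μ : Fin b.n → Fin n, b.Holds (toRel n a E) (fun j => (rq j).Sat (toRel n a E)) μ ∧
            ∀ i, μ (out i) = z i) := by
  obtain ⟨w1, w2, w3, w4⟩ := hw
  have hq : ∀ t ∈ q.2, t.1.1 < q.1.1 ∧ t.1.2 < q.1.1 := fun t ht => ⟨(w3 t ht).1, (w3 t ht).2.1⟩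
  have hwf : ∀ t ∈ q.2, WfAut (a + c) t.2 := fun t ht => (w3 t ht).2.2
  obtain ⟨m1, m2, m3⟩ := mem_cqU h1 M q hM
  let out : Fin r → Fin (bodyOf a c q hq).n := fun i =>
    ⟨q.1.2.get (i.cast w1.symm), w2 _ (List.get_mem _ _)⟩
  have ho : q.1.2 = List.ofFn fun i => (out i : ℕ) := by
    apply List.ext_getElem
    · rw [List.length_ofFn, w1]
    · intro i hi1 hi2
      rw [List.getElem_ofFn]
      rfl
  refine ⟨bodyOf a c q hq, out, body_size a c M q hq hc m1 m2 m3,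
    body_simple a c q hq hwf hs, body_width h7 a c k q hq w4, ?_⟩
  intro n E hE z
  refine h3 (nmA a c) (bodyOf a c q hq) q (codesBody a c q hq hwf) out ho (toRel n a E)
    (fun j => (rq j).Sat (toRel n a E)) (progE n a E defs) ?_ ?_ z
  · intro u l v
    rcases l with l | j
    · have := h6 n a E [] defs (((u : ℕ), (l : ℕ)), (v : ℕ)) (by simp)
      rw [List.nil_append] at this
      exact this
    · exact hrq n E hE u j v
  · intro e he
    have := h4 n a E hE _ e he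
    exact ⟨this.1, this.2.1⟩

theorem ofFn_two {n : ℕ} (u v : Fin n) :
    (List.ofFn fun i : Fin 2 => ((![u, v] i : Fin n) : ℕ)) = [(u : ℕ), (v : ℕ)] := by
  simp [List.ofFn_succ]

/-- A finite union of binary queries. -/
theorem uni (h1 : V_LM) (h3 : V_CI) (h4 : V_PB) (h6 : V_PA) (h7 : V_TI)
    (a k M c : ℕ) (hc : c ≤ M) (defs : List UqC) (Q : UqC) (hM : Q ∈ uqU M)
    (hw : WfUq (a + c) 2 k Q) (hs : SiUq a Q)
    (rq : Fin c → RQ (Fin a)) (hrw : ∀ j, (rq j).Width k) (hrs : ∀ j, (rq j).Simple)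
    (hrq : ∀ (n : ℕ) (E : GrC), GrOK n a E → ∀ (u : Fin n) (j : Fin c) (v : Fin n),
      (((u : ℕ), a + (j : ℕ)), (v : ℕ)) ∈ progE n a E defs ↔ (rq j).Sat (toRel n a E) u v) :
    ∃ ω : RQ (Fin a), ω.Width k ∧ ω.Simple ∧
      ω.size ≤ (1 + M + M * (1 + 3 * M + M ^ 2)) + M * ∑ j, (rq j).size ∧
      ∀ (n : ℕ) (E : GrC), GrOK n a E → ∀ u v : Fin n,
        (UqSat n (progE n a E defs) Q [(u : ℕ), (v : ℕ)] ↔ ω.Sat (toRel n a E) u v) := by
  obtain ⟨hl, hm⟩ := mem_uqU h1 M Q hM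
  have key : ∀ i : Fin Q.length, ∃ (b : Body (Fin a) c) (out : Fin 2 → Fin b.n),
      b.size ≤ 3 * M + M ^ 2 ∧ b.Simple ∧ TreeWidthLE b.graph k ∧
      ∀ (n : ℕ) (E : GrC), GrOK n a E → ∀ z : Fin 2 → Fin n,
        (CqSat n (progE n a E defs) (Q.get i) (List.ofFn fun i => (z i : ℕ)) ↔
          ∃ μ : Fin b.n → Fin n, b.Holds (toRel n a E) (fun j => (rq j).Sat (toRel n a E)) μ ∧
            ∀ i, μ (out i) = z i) := fun i =>
    one h1 h3 h4 h6 h7 a 2 k M c hc defs (Q.get i) (hm _ (List.get_mem _ _))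
      (hw _ (List.get_mem _ _)) (hs _ (List.get_mem _ _)) rq hrq
  choose b out k1 k2 k3 k4 using key
  refine ⟨RQ.union Q.length fun i => RQ.cq c (b i) rq (out i 0) (out i 1), ?_, ?_, ?_, ?_⟩
  · intro i
    exact ⟨k3 i, hrw⟩
  · intro i
    exact ⟨k2 i, hrs⟩
  · show 1 + Q.length + ∑ i : Fin Q.length, (1 + (b i).size + ∑ j, (rq j).size) ≤ _
    have e1 : ∑ i : Fin Q.length, (1 + (b i).size + ∑ j, (rq j).size) ≤
        ∑ _i : Fin Q.length, (1 + 3 * M + M ^ 2 + ∑ j, (rq j).size) :=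
      Finset.sum_le_sum fun i _ => by have := k1 i; omega
    rw [Finset.sum_const, Finset.card_univ, Fintype.card_fin, smul_eq_mul] at e1
    have e2 : Q.length * (1 + 3 * M + M ^ 2 + ∑ j, (rq j).size) ≤
        M * (1 + 3 * M + M ^ 2 + ∑ j, (rq j).size) := Nat.mul_le_mul_right _ hl
    rw [Nat.mul_add M (1 + 3 * M + M ^ 2)] at e2
    omega
  · intro n E hE u v
    constructor
    · rintro ⟨q, hq, hsat⟩
      obtain ⟨i, rfl⟩ := List.mem_iff_get.1 hq
      rw [← ofFn_two, k4 i n E hE] at hsat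
      obtain ⟨μ, hμ, hz⟩ := hsat
      exact ⟨i, μ, hμ, hz 0, hz 1⟩
    · rintro ⟨i, μ, hμ, hz0, hz1⟩
      refine ⟨Q.get i, List.get_mem _ _, ?_⟩
      rw [← ofFn_two, k4 i n E hE]
      refine ⟨μ, hμ, ?_⟩
      intro t
      fin_cases t
      · exact hz0
      · exact hz1

/-- All definitions of a program. -/
theorem defsQ (h1 : V_LM) (h3 : V_CI) (h4 : V_PB) (h5 : V_PE) (h6 : V_PA) (h7 : V_TI)
    (a k M : ℕ) (defs : List UqC) (hl : defs.length ≤ M) (hM : ∀ Q ∈ defs, Q ∈ uqU M)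
    (hw : ∀ i < defs.length, WfUq (a + i) 2 k (defs.getD i []))
    (hs : ∀ Q ∈ defs, SiUq a Q) :
    ∀ c, c ≤ defs.length → ∃ rq : Fin c → RQ (Fin a), (∀ j, (rq j).Width k) ∧
      (∀ j, (rq j).Simple) ∧
      (∑ j, (rq j).size ≤ (1 + M + M * (1 + 3 * M + M ^ 2)) * (M + 2) ^ c) ∧
      ∀ (n : ℕ) (E : GrC), GrOK n a E → ∀ (u : Fin n) (j : Fin c) (v : Fin n),
        (((u : ℕ), a + (j : ℕ)), (v : ℕ)) ∈ progE n a E defs ↔
          (rq j).Sat (toRel n a E) u v := by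
  intro c
  induction c with
  | zero =>
    intro _
    refine ⟨fun j => j.elim0, fun j => j.elim0, fun j => j.elim0, ?_, ?_⟩
    · simp
    · intro n E _ u j
      exact j.elim0
  | succ c ih =>
    intro hc
    obtain ⟨rq, r1, r2, r3, r4⟩ := ih (by omega)
    have hcl : c < defs.length := by omega
    have hmem : defs.getD c [] ∈ defs := by
      rw [List.getD_eq_getElem _ _ hcl]
      exact List.getElem_mem _
    obtain ⟨ω, o1, o2, o3, o4⟩ := uni h1 h3 h4 h6 h7 a k M c (by omega) defs (defs.getD c [])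
      (hM _ hmem) (hw c hcl) (hs _ hmem) rq r1 r2 r4
    obtain ⟨τ, hτl, hτc⟩ : ∃ τ : Fin (c + 1) → RQ (Fin a), τ (Fin.last c) = ω ∧
        ∀ j : Fin c, τ j.castSucc = rq j :=
      ⟨Fin.snoc (α := fun _ => RQ (Fin a)) rq ω, Fin.snoc_last _ _,
        fun j => Fin.snoc_castSucc _ _ _⟩
    refine ⟨τ, ?_, ?_, ?_, ?_⟩
    · intro j
      refine Fin.lastCases ?_ ?_ j
      · rw [hτl]
        exact o1
      · intro j
        rw [hτc]
        exact r1 j
    · intro j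
      refine Fin.lastCases ?_ ?_ j
      · rw [hτl]
        exact o2
      · intro j
        rw [hτc]
        exact r2 j
    · rw [Fin.sum_univ_castSucc, hτl]
      simp only [hτc]
      generalize (1 + M + M * (1 + 3 * M + M ^ 2)) = K at *
      generalize (∑ j, (rq j).size) = S at *
      have e0 : 1 ≤ (M + 2) ^ c := Nat.one_le_pow _ _ (by omega)
      have e1 : K ≤ K * (M + 2) ^ c := Nat.le_mul_of_pos_right _ e0
      have e2 : M * S ≤ M * (K * (M + 2) ^ c) := Nat.mul_le_mul_left _ r3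
      have e3 : K * (M + 2) ^ (c + 1) = M * (K * (M + 2) ^ c) + 2 * (K * (M + 2) ^ c) := by
        ring
      omega
    · intro n E hE u j v
      refine Fin.lastCases ?_ ?_ j
      · rw [hτl, ← o4 n E hE u v]
        have := h5 n a E hE defs (fun i hi q hq t ht y hy =>
          ((((hw i hi) q hq).2.2.1 t ht).2.2.2.2 y hy).2.1) c hcl u v
        rw [show ((Fin.last c : Fin (c + 1)) : ℕ) = c from rfl, this]
        exact ⟨fun h => h.2.2, fun h => ⟨u.2, v.2, h⟩⟩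
      · intro j
        rw [hτc]
        exact r4 n E hE u j v

set_option linter.unusedVariables false in
theorem pf_CPQ (h1 : V_LM) (h2 : V_AI) (h3 : V_CI) (h4 : V_PB) (h5 : V_PE) (h6 : V_PA)
    (h7 : V_TI) : V_PQ := by
  intro a r k M P hP hw hs
  obtain ⟨⟨p1, p2⟩, p3⟩ := mem_prU h1 M P hP
  obtain ⟨hl, hm⟩ := mem_uqU h1 M P.2 p3
  obtain ⟨rq, r1, r2, r3, r4⟩ := defsQ h1 h3 h4 h5 h6 h7 a k M P.1 p1 p2
    (fun i hi => hw.1 i (List.mem_range.2 hi)) hs.1 P.1.length le_rfl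
  have key : ∀ i : Fin P.2.length, ∃ (b : Body (Fin a) P.1.length) (out : Fin r → Fin b.n),
      b.size ≤ 3 * M + M ^ 2 ∧ b.Simple ∧ TreeWidthLE b.graph k ∧
      ∀ (n : ℕ) (E : GrC), GrOK n a E → ∀ z : Fin r → Fin n,
        (CqSat n (progE n a E P.1) (P.2.get i) (List.ofFn fun i => (z i : ℕ)) ↔
          ∃ μ : Fin b.n → Fin n, b.Holds (toRel n a E) (fun j => (rq j).Sat (toRel n a E)) μ ∧
            ∀ i, μ (out i) = z i) := fun i =>
    one h1 h3 h4 h6 h7 a r k M P.1.length p1 P.1 (P.2.get i) (hm _ (List.get_mem _ _))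
      (hw.2 _ (List.get_mem _ _)) (hs.2 _ (List.get_mem _ _)) rq r4
  choose b out k1 k2 k3 k4 using key
  let cr : Fin P.2.length → CRQ (Fin a) r := fun i => ⟨P.1.length, b i, rq, out i⟩
  refine ⟨List.ofFn cr, ?_, ?_, ?_, ?_⟩
  · intro t ht
    obtain ⟨i, rfl⟩ := List.mem_ofFn.1 ht
    exact ⟨k3 i, r1⟩
  · intro t ht
    obtain ⟨i, rfl⟩ := List.mem_ofFn.1 ht
    exact ⟨k2 i, r2⟩
  · have e1 : Query.size (List.ofFn cr) = ∑ i : Fin P.2.length, (cr i).size := by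
      unfold Query.size
      rw [List.map_ofFn, List.sum_ofFn]
      rfl
    rw [e1]
    have e2 : ∀ i, (cr i).size ≤
        1 + 3 * M + M ^ 2 + (1 + M + M * (1 + 3 * M + M ^ 2)) * (M + 2) ^ M := by
      intro i
      show 1 + (b i).size + ∑ j, (rq j).size ≤ _
      have := k1 i
      have e3 : (M + 2) ^ P.1.length ≤ (M + 2) ^ M := Nat.pow_le_pow_right (by omega) p1
      have e4 := Nat.mul_le_mul_left (1 + M + M * (1 + 3 * M + M ^ 2)) e3
      omega
    have e3 := Finset.sum_le_sum (s := Finset.univ) (fun i (_ : i ∈ Finset.univ) => e2 i)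
    rw [Finset.sum_const, Finset.card_univ, Fintype.card_fin, smul_eq_mul] at e3
    exact e3.trans (Nat.mul_le_mul_right _ hl)
  · intro n E hE z
    constructor
    · rintro ⟨q, hq, hsat⟩
      obtain ⟨i, rfl⟩ := List.mem_iff_get.1 hq
      rw [k4 i n E hE] at hsat
      exact ⟨cr i, List.mem_ofFn.2 ⟨i, rfl⟩, hsat⟩
    · rintro ⟨t, ht, hsat⟩
      obtain ⟨i, rfl⟩ := List.mem_ofFn.1 ht
      refine ⟨P.2.get i, List.get_mem _ _, ?_⟩
      rw [k4 i n E hE]
      exact hsat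

end Pool.Agent.H35.SW
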